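import Pool.Agent.Results.MP_e5c236_nt.ExactlyFourDensityOne
import Pool.Agent.Run7.h823.SG.Split
import Pool.Agent.Run7.h823.WF.PN
import Pool.Agent.Run7.h823.WF.Ex

/-!
# Sums of four positive integers with product a fourth power: polynomial values in sparse families of vectors of residues

The question is whether all `n` outside of a list of 13 integers are sums of exactly four positive integers whose product is a
fourth power, and whether `G'(4) = 4`. The starting results show that almost all `n` are such sums. Such a statement says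
nothing about sparse sets of `n`, such as values of polynomials. Here `n` is near a value of a polynomial at members of very
sparse FINITE sets of integers which are defined modulo a large integer, such as the first `m ^ ε` terms of a linear recurrence
modulo a prime `m`.

Let `y_i`, `i ∈ s`, be a finite family of vectors of residues modulo an integer `q` with small Fourier coefficients: for all
`h ≠ 0` modulo `q` we have `|∑ e(h·y_i / q)| ≤ δ (log q) ^ (-r) |s|`, where `r` is the number of the coordinates. We consider
the integers `n` near `f(ℓ(c₀ + y_i))` (least residues), for linear forms `ℓ ≠ 0` with integral coefficients, nonconstant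
polynomials `f` with integral coefficients and any integral vector `c₀`.

**Theorem.** For all `r`, `B` and `ε > 0` there is `δ > 0` such that for all `q ≥ 1 / δ`, ALL such families
and ALL `c₀` the following holds for all but `ε |s|` of the `i`, SIMULTANEOUSLY for ALL linear forms `ℓ ≠ 0` with
coefficients at most `B` in absolute value, ALL nonconstant `f` of degree at most `B` and with coefficients at most `B`, and
ALL integers `n ≥ 1` with `|n - f(ℓ(c₀ + y_i))| ≤ B`: `n` is a sum of exactly four positive
integers whose product is a fourth power.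

The family can be very sparse: examples (of vectors with `r` coordinates) are

* the values `(u_1(n), …, u_r(n))`, `n < N`, of `r` linear recurrences modulo a prime `m` with linearly independent vectors
  of coefficients, as soon as `N ≥ m ^ ε` and the roots and their quotients have orders `≥ m ^ ε`;
* the vectors `(x_1 b_1 ^ n, …, x_r b_r ^ n)`, `n < N`, `N ≥ m ^ ε`, for fixed different integers `b_j ≥ 2` and
  all `x_j ≠ 0`, modulo all but `C X ^ ε` of the primes `m ≤ X`.

In these examples only `m ^ ε` of the `m ^ r` vectors of the box occur.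

From Mathlib: `ZMod.stdAddChar`: the additive character `j ↦ exp (2 π i j / q)` of the integers modulo `q`; `ZMod.val`: the
least residue.

The proof: a positive integer with a prime factor `p ≡ 1` modulo 28 has the property (starting file); by the prime ideal
theorem for the splitting primes of a number field which contains a zero of `f + b` and the roots of unity of order 28,
the vectors `c` such that some integer near `f(ℓ(c))` has no such prime factor form a pronull set
(`Pool.Agent.Run7.h823.SG.div_null`); families with small Fourier coefficients rarely meet pronull sets, since they are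
equidistributed modulo every fixed integer (`Pool.Agent.Run7.h823.WF.PN`); the Fourier coefficients of short recurrences are
estimated by the method of Bourgain, Glibichuk and Konyagin (`Pool.Agent.Run7.h823.BK`).
-/

set_option autoImplicit false

namespace Pool.Agent.Results.MP_e5c236_nt.ResidueVectors

open Polynomial
open Finset (range)

/-- The Fourier coefficients of the vectors of residues `y i`, `i ∈ s`, modulo `q` at the nonzero frequencies are at most
`η` times the number of the vectors: `|∑ i ∈ s, e(h·y_i / q)| ≤ η |s|` for all vectors `h ≠ 0` modulo `q`. -/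
def Flat {τ ι : Type} [Fintype ι] (q : ℕ) [NeZero q] (η : ℝ) (s : Finset τ) (y : τ → ι → ZMod q) : Prop :=
  ∀ h : ι → ZMod q, h ≠ 0 → ‖∑ i ∈ s, (ZMod.stdAddChar (∑ j, h j * y i j) : ℂ)‖ ≤ η * s.card

/-- The integral vector `c₀ + y_i`, with the least residues `0 ≤ y_i < q`. -/
def vec {τ ι : Type} {q : ℕ} (y : τ → ι → ZMod q) (c₀ : ι → ℤ) (i : τ) (j : ι) : ℤ := c₀ j + ((y i j).val : ℕ)

/-- `n` is a sum of exactly four positive integers whose product is the fourth power of a
positive integer. -/
def Four (n : ℕ) : Prop :=
  ∃ a b c d : ℕ, 0 < a ∧ 0 < b ∧ 0 < c ∧ 0 < d ∧ n = a + b + c + d ∧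
    ∃ x : ℕ, 0 < x ∧ a * b * c * d = x ^ 4

/-- A polynomial with integral coefficients which has degree at most `B` and coefficients at most `B` in absolute value. -/
def Small (B : ℕ) (P : ℤ[X]) : Prop := P.natDegree ≤ B ∧ ∀ j, |P.coeff j| ≤ B

/-- All integers near the values of all small polynomials at all small linear forms at the integral vector `c` are sums of
four positive integers with product a fourth power: for all linear forms `ℓ ≠ 0` with coefficients `|lam_j| ≤ B`, all nonconstant
`f` of degree at most `B` and with coefficients at most `B` and all `n ≥ 1` with `|n - f(ℓ(c))| ≤ B`. -/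
def FourNear {r : ℕ} (B : ℕ) (c : Fin r → ℤ) : Prop :=
  ∀ lam : Fin r → ℤ, lam ≠ 0 → (∀ j, |lam j| ≤ B) → ∀ f : ℤ[X], 0 < f.natDegree → Small B f →
    ∀ n : ℕ, 1 ≤ n → |(n : ℤ) - f.eval (∑ j, lam j * c j)| ≤ B → Four n

open Pool.Agent.N24.RW (ProNull) in
theorem null (r B : ℕ) : ProNull {c : Fin r → ℤ | ¬ FourNear B c} := by
  refine Pool.Agent.N24.RW.Clo.mono ?_ (Pool.Agent.Run7.h823.SG.div_null r B (m := 28) (by norm_num))
  intro c hc hD
  apply hc
  intro lam hl hlB f hf hfB n hn hnf
  obtain ⟨p, hp, hm, hpn⟩ := hD lam hl hlB f hf hfB n hnf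
  have hpn' : p ∣ n := by exact_mod_cast hpn
  have hp1 := hp.one_lt
  refine Pool.Agent.Results.MP_e5c236_nt.ExactlyFourDensityOne.four_of_dvd hp ?_ hn hpn'
  omega

/-- **Theorem.** (1) For all `r`, `B` and `ε > 0` there is `δ > 0` such that for all `q ≥ 1 / δ`, all families of vectors of
residues modulo `q` with Fourier coefficients at most `δ (log q) ^ (-r) |s|` at the nonzero frequencies and all integral
vectors `c₀` all but `ε |s|` of the members `c₀ + y_i` have the property `FourNear B`.

(2) Examples: short linear recurrences. (3) Examples: the first powers of fixed integers, modulo all but `C X ^ ε` of the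
primes `m ≤ X`. (The Fourier coefficients are even at most `m ^ (-β) N`.) -/
theorem result :
    (∀ (r B : ℕ) (ε : ℝ), 0 < ε → ∃ δ : ℝ, 0 < δ ∧ ∀ (q : ℕ) [NeZero q], 1 / δ ≤ q →
      ∀ (τ : Type) (s : Finset τ) (y : τ → Fin r → ZMod q), Flat q (δ / Real.log q ^ r) s y →
      ∀ c₀ : Fin r → ℤ, ({i : τ | i ∈ s ∧ ¬ FourNear B (vec y c₀ i)}.ncard : ℝ) ≤ ε * s.card) ∧
    (∀ (k : ℕ) (ε : ℝ), 0 < ε → ∃ β : ℝ, 0 < β ∧ ∃ m₀ : ℕ, ∀ (m : ℕ) [Fact m.Prime], m₀ ≤ m →
      ∀ (ι : Type) [Fintype ι] (c : ι → Fin k → ZMod m) (g : Fin k → (ZMod m)ˣ) (N : ℕ), LinearIndependent (ZMod m) c →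
      (∀ i, (m : ℝ) ^ ε ≤ orderOf (g i)) → (∀ i j, i ≠ j → (m : ℝ) ^ ε ≤ orderOf (g i / g j)) → (m : ℝ) ^ ε ≤ N →
      Flat m ((m : ℝ) ^ (-β)) (range N) (fun n j => ∑ i, c j i * (g i : ZMod m) ^ n)) ∧
    (∀ (ι : Type) [Fintype ι] (ε : ℝ), 0 < ε → ∃ β : ℝ, 0 < β ∧ ∀ b : ι → ℕ, (∀ j, 2 ≤ b j) → Function.Injective b →
      ∃ C : ℝ, ∀ X : ℕ, 1 ≤ X → ∀ Q : Finset ℕ,
      (∀ m ∈ Q, m ≤ X ∧ ∃ _ : Fact m.Prime, ¬ ∀ N : ℕ, (m : ℝ) ^ ε ≤ N → ∀ x : ι → ZMod m, (∀ j, x j ≠ 0) →
        Flat m ((m : ℝ) ^ (-β)) (range N) (fun n j => x j * (b j : ZMod m) ^ n)) →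
      (Q.card : ℝ) ≤ C * (X : ℝ) ^ ε) := by
  refine ⟨?_, fun k ε hε => Pool.Agent.Run7.h823.WF.flat_rec' k hε,
    fun ι _ ε hε => Pool.Agent.Run7.h823.WF.flat_pow' ι hε⟩
  intro r B ε hε
  obtain ⟨δ, hδ, h⟩ := Pool.Agent.Run7.h823.WF.PN.rare _ (null r B) hε
  refine ⟨δ, hδ, fun q _ hq τ s y hf c₀ => h τ q hq s y ?_ c₀⟩
  rw [Fintype.card_fin]
  exact hf

end Pool.Agent.Results.MP_e5c236_nt.ResidueVectors
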